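import Mathlib
import Pool.Agent.H636.FW.Few

set_option autoImplicit false

/-!
# At least two members between consecutive odd squares, in random models of the primes

The question is whether `P_k ≥ 2` for all `k`, where `P_k` is the number of odd primes in
`I_k = ((2k-1)², (2k+1)²)`.  We study it in EVERY sequential random model of the primes: the integers
are decided one after the other, only integers coprime to a fixed `Q` can be chosen, and the
conditional probability of choosing `n + 1` (coprime to `Q`) given the past is asymptotic to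
`(Q / φ(Q)) / log n`; no independence is assumed (for `Q = 1` Cramér's model and the Hawkins random
sieve are examples; for even `Q` all members are odd).  We ask how short a part of `I_k` is enough
to find two (or `r + 1`) members, wherever it lies in `I_k`.  The critical length is `2 (log k)²`:
for a window of length `c (log k)²` at an arbitrary place `t k` in `I_k`,

* if `c > 2`, almost surely all windows with `k` large contain more than `κ log k` members, `κ > 0`;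
* if `c < 2`, almost surely the number of `k ≤ K` whose window contains AT MOST ONE member (or at
  most `r` members, or no member) is `K ^ (1 - c / 2 + o(1))`;
* the exact upper and lower limits of the number of members divided by `log k` are determined.

In particular, almost surely `P_k ≥ 2`, and `P_k ≥ r` for every `r`, for all large `k`.
-/

open MeasureTheory Filter
open scoped Topology

namespace Pool.Agent.Results.MP_5f6ee5_nt.AtMostOneMember

/-- the number of members of `S` in the interval `(x, x + y]` -/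
noncomputable def countAfter (S : Set ℕ) (x : ℕ) (y : ℝ) : ℕ :=
  Set.ncard {a : ℕ | a ∈ S ∧ x < a ∧ (a : ℝ) ≤ (x : ℝ) + y}

/-- the number of members of `S` in the open interval `I_k = ((2k-1)², (2k+1)²)` -/
noncomputable def countI (S : Set ℕ) (k : ℕ) : ℕ :=
  Set.ncard {a : ℕ | a ∈ S ∧ (2 * k - 1) ^ 2 < a ∧ a < (2 * k + 1) ^ 2}

/-- the number of `k ≤ K` for which `(t k, t k + c (log k)²]` contains at most `r` members of `S` -/
noncomputable def fewUpTo (S : Set ℕ) (t : ℕ → ℕ) (c : ℝ) (r K : ℕ) : ℕ :=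
  Set.ncard {k : ℕ | k ≤ K ∧ countAfter S (t k) (c * Real.log k ^ 2) ≤ r}

open Pool.Agent.R528.RM Pool.Agent.H636.FW

lemma countAfter_eq {Ω : Type} {A : ℕ → Set Ω} (ω : Ω) (x : ℕ) {y : ℝ} (hy : 0 ≤ y) :
    countAfter {k | ω ∈ A k} x y = cnt A x ⌊y⌋₊ ω := by
  rw [cnt_eq_ncard]
  unfold countAfter
  congr 1
  ext a
  simp only [Set.mem_ofPred_eq]
  refine and_congr_right fun _ => and_congr_right fun hx => ?_
  obtain ⟨b, rfl⟩ : ∃ b, a = x + b := ⟨a - x, by omega⟩
  push_cast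
  rw [add_le_add_iff_left, add_le_add_iff_left, Nat.le_floor_iff hy]

lemma fewUpTo_eq {Ω : Type} {A : ℕ → Set Ω} (ω : Ω) (t : ℕ → ℕ) {c : ℝ} (hc : 0 < c) (r K : ℕ) :
    fewUpTo {k | ω ∈ A k} t c r K = few A t (fun j => ⌊c * Real.log j ^ 2⌋₊) r K ω := by
  unfold fewUpTo few
  rw [← Set.ncard_coe_finset]
  congr 1
  ext k
  simp only [Set.mem_ofPred_eq, Finset.coe_filter, Finset.mem_range]
  rw [countAfter_eq ω (t k) (show 0 ≤ c * Real.log k ^ 2 by positivity), Nat.lt_succ_iff]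

lemma sq_le_odd {k : ℕ} (hk : 1 ≤ k) : k ^ 2 ≤ (2 * k - 1) ^ 2 :=
  Nat.pow_le_pow_left (by omega) 2

lemma odd_le_sq {k : ℕ} (hk : 1 ≤ k) : (2 * k + 1) ^ 2 ≤ (3 * k) ^ 2 :=
  Nat.pow_le_pow_left (by omega) 2

lemma spar_t {c : ℝ} (hc : 0 < c) {t : ℕ → ℕ} (ht : ∀ᶠ k : ℕ in atTop,
      (2 * k - 1) ^ 2 ≤ t k ∧ (t k : ℝ) + c * Real.log k ^ 2 < (2 * (k : ℝ) + 1) ^ 2) :
    Spar t (fun j => ⌊c * Real.log j ^ 2⌋₊) (c / 2) := by
  have hnat : ∀ᶠ j : ℕ in atTop, t j + ⌊c * Real.log j ^ 2⌋₊ < (2 * j + 1) ^ 2 := by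
    filter_upwards [ht] with j hj
    have h1 : ((⌊c * Real.log j ^ 2⌋₊ : ℕ) : ℝ) ≤ c * Real.log j ^ 2 := Nat.floor_le (by positivity)
    have h2 : (t j : ℝ) + ((⌊c * Real.log j ^ 2⌋₊ : ℕ) : ℝ) < (2 * (j : ℝ) + 1) ^ 2 := by
      linarith [hj.2]
    exact_mod_cast h2
  apply spar_of hc
  · filter_upwards [hnat, (tendsto_add_atTop_nat 1).eventually ht] with j h1 h2
    have h3 : (2 * (j + 1) - 1) ^ 2 = (2 * j + 1) ^ 2 := by
      congr 1
    have := h2.1
    omega
  · filter_upwards [ht, hnat, eventually_ge_atTop 1] with k h1 h2 h3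
    have := sq_le_odd h3
    have := odd_le_sq h3
    exact ⟨by omega, by omega⟩

lemma countI_ge {S : Set ℕ} {k : ℕ} {y : ℝ} (h : (((2 * k - 1) ^ 2 : ℕ) : ℝ) + y < (2 * (k : ℝ) + 1) ^ 2) :
    countAfter S ((2 * k - 1) ^ 2) y ≤ countI S k := by
  unfold countAfter countI
  apply Set.ncard_le_ncard
  · rintro a ⟨h1, h2, h3⟩
    refine ⟨h1, h2, ?_⟩
    have h4 : (a : ℝ) < (2 * (k : ℝ) + 1) ^ 2 := lt_of_le_of_lt h3 h
    exact_mod_cast h4
  · exact (Set.finite_lt_nat ((2 * k + 1) ^ 2)).subset fun a ha => ha.2.2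

end Pool.Agent.Results.MP_5f6ee5_nt.AtMostOneMember

open Pool.Agent.Results.MP_5f6ee5_nt.AtMostOneMember

/-- Let `A n` be the event that `n` belongs to a random set adapted to a filtration `ℱ`, let
`Q ≥ 1`, let no integer which is not coprime to `Q` be chosen, and let the conditional probability of
`A (n + 1)` given `ℱ n`, times `log n`, tend to `Q / φ(Q)` along the `n` with `n + 1` coprime to `Q`,
almost surely.  First: almost surely, for every `r` and all large `k`, the interval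
`I_k = ((2k-1)², (2k+1)²)` contains at least `r` members.  Second: let `c > 0` and let `t k` be
arbitrary starting points such that `(t k, t k + c (log k)²]` is contained in `I_k`.
(1) If `c < 2`, then almost surely, for every `r` (in particular `r = 1`) and `ε > 0`, the number of
`k ≤ K` for which this window contains at most `r` members lies between `K ^ (1 - c / 2 - ε)` and
`K ^ (1 - c / 2 + ε)` for all large `K`.
(2) If `c > 2`, there is `κ > 0` such that almost surely, for all large `k`, the window contains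
more than `κ log k` members.
(3) Let `a > 1` satisfy `(c / 2) (a log a - a + 1) = 1`, and let `b < 1` be `0` if `c ≤ 2`, or satisfy
`0 < b` and `(c / 2) (b log b - b + 1) = 1`.  Then almost surely the number of members of the
window, divided by `(c / 2) log k`, has upper limit `a` and lower limit `b`. -/
theorem Pool.Agent.Results.MP_5f6ee5_nt.AtMostOneMember.result
    {Ω : Type} [mΩ : MeasurableSpace Ω] (μ : Measure Ω) [IsProbabilityMeasure μ]
    (ℱ : Filtration ℕ mΩ) (A : ℕ → Set Ω) (hA : ∀ n, MeasurableSet[ℱ n] (A n))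
    (Q : ℕ) (hQ : 0 < Q) (hcop : ∀ n, ¬ Nat.Coprime n Q → A n = ∅)
    (hd : ∀ᵐ ω ∂μ, Tendsto (fun n : ℕ =>
      (μ[(A (n + 1)).indicator (fun _ => (1 : ℝ)) | ℱ n]) ω * Real.log n)
      (atTop ⊓ 𝓟 {n : ℕ | Nat.Coprime (n + 1) Q}) (𝓝 ((Q : ℝ) / Nat.totient Q))) :
    (∀ᵐ ω ∂μ, ∀ r : ℕ, ∀ᶠ k : ℕ in atTop, r ≤ countI {n | ω ∈ A n} k) ∧
    ∀ (c : ℝ) (t : ℕ → ℕ), 0 < c →
      (∀ᶠ k : ℕ in atTop, (2 * k - 1) ^ 2 ≤ t k ∧
        (t k : ℝ) + c * Real.log k ^ 2 < (2 * (k : ℝ) + 1) ^ 2) →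
      (c < 2 → ∀ᵐ ω ∂μ, ∀ r : ℕ, ∀ ε : ℝ, 0 < ε → ∀ᶠ K : ℕ in atTop,
        (K : ℝ) ^ (1 - c / 2 - ε) ≤ fewUpTo {n | ω ∈ A n} t c r K ∧
        (fewUpTo {n | ω ∈ A n} t c r K : ℝ) ≤ (K : ℝ) ^ (1 - c / 2 + ε)) ∧
      (2 < c → ∃ κ : ℝ, 0 < κ ∧ ∀ᵐ ω ∂μ, ∀ᶠ k : ℕ in atTop,
        κ * Real.log k < countAfter {n | ω ∈ A n} (t k) (c * Real.log k ^ 2)) ∧
      (∀ a b : ℝ, 1 < a → c / 2 * (a * Real.log a - a + 1) = 1 → b < 1 →
        ((c ≤ 2 ∧ b = 0) ∨ (0 < b ∧ c / 2 * (b * Real.log b - b + 1) = 1)) →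
        ∀ᵐ ω ∂μ, ∀ ε : ℝ, 0 < ε →
          (∀ᶠ k : ℕ in atTop, (countAfter {n | ω ∈ A n} (t k) (c * Real.log k ^ 2) : ℝ) <
            (a + ε) * (c / 2) * Real.log k) ∧
          (∃ᶠ k : ℕ in atTop, (a - ε) * (c / 2) * Real.log k <
            countAfter {n | ω ∈ A n} (t k) (c * Real.log k ^ 2)) ∧
          (∀ᶠ k : ℕ in atTop, (b - ε) * (c / 2) * Real.log k <
            countAfter {n | ω ∈ A n} (t k) (c * Real.log k ^ 2)) ∧
          (∃ᶠ k : ℕ in atTop, (countAfter {n | ω ∈ A n} (t k) (c * Real.log k ^ 2) : ℝ) <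
            (b + ε) * (c / 2) * Real.log k)) := by
  have hprof := Pool.Agent.R528.RM.dens_profile (μ := μ) (ℱ := ℱ) hA Q hQ hcop hd
  have main : ∀ (c : ℝ) (t : ℕ → ℕ), 0 < c →
      (∀ᶠ k : ℕ in atTop, (2 * k - 1) ^ 2 ≤ t k ∧
        (t k : ℝ) + c * Real.log k ^ 2 < (2 * (k : ℝ) + 1) ^ 2) →
      (∀ a b : ℝ, 1 < a → c / 2 * (a * Real.log a - a + 1) = 1 → b < 1 →
        ((c ≤ 2 ∧ b = 0) ∨ (0 < b ∧ c / 2 * (b * Real.log b - b + 1) = 1)) →
        ∀ᵐ ω ∂μ, ∀ ε : ℝ, 0 < ε →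
          (∀ᶠ k : ℕ in atTop, (countAfter {n | ω ∈ A n} (t k) (c * Real.log k ^ 2) : ℝ) <
            (a + ε) * (c / 2) * Real.log k) ∧
          (∃ᶠ k : ℕ in atTop, (a - ε) * (c / 2) * Real.log k <
            countAfter {n | ω ∈ A n} (t k) (c * Real.log k ^ 2)) ∧
          (∀ᶠ k : ℕ in atTop, (b - ε) * (c / 2) * Real.log k <
            countAfter {n | ω ∈ A n} (t k) (c * Real.log k ^ 2)) ∧
          (∃ᶠ k : ℕ in atTop, (countAfter {n | ω ∈ A n} (t k) (c * Real.log k ^ 2) : ℝ) <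
            (b + ε) * (c / 2) * Real.log k)) := by
    intro c t hc ht a b ha hIa hb1 hb
    have hb0 : 0 ≤ b := by
      rcases hb with h | h
      · exact h.2.ge
      · exact h.1.le
    have hb' : (c / 2 ≤ 1 ∧ b = 0) ∨ (0 < b ∧ c / 2 * Pool.Agent.R528.RM.II b = 1) := by
      rcases hb with h | h
      · exact Or.inl ⟨by linarith [h.1], h.2⟩
      · exact Or.inr h
    filter_upwards [Pool.Agent.R528.RM.spar_final (μ := μ) (ℱ := ℱ) hA hQ hprof (spar_t hc ht)
      (show 0 < c / 2 by positivity) ha hIa hb0 hb1 hb'] with ω hω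
    have e : ∀ n : ℕ, countAfter {n | ω ∈ A n} (t n) (c * Real.log n ^ 2) =
        Pool.Agent.R528.RM.cnt A (t n) ⌊c * Real.log n ^ 2⌋₊ ω :=
      fun n => countAfter_eq ω (t n) (by positivity)
    simp_rw [e]
    exact hω
  have main2 : ∀ (c : ℝ) (t : ℕ → ℕ), 0 < c →
      (∀ᶠ k : ℕ in atTop, (2 * k - 1) ^ 2 ≤ t k ∧
        (t k : ℝ) + c * Real.log k ^ 2 < (2 * (k : ℝ) + 1) ^ 2) →
      2 < c → ∃ κ : ℝ, 0 < κ ∧ ∀ᵐ ω ∂μ, ∀ᶠ k : ℕ in atTop,
        κ * Real.log k < countAfter {n | ω ∈ A n} (t k) (c * Real.log k ^ 2) := by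
    intro c t hc ht hc2
    obtain ⟨a, b, ha, hIa, hb0, hb1, hIb⟩ :=
      Pool.Agent.R528.RM.II_roots (show 1 < c / 2 by linarith)
    refine ⟨b / 2 * (c / 2), by positivity, ?_⟩
    filter_upwards [main c t hc ht a b ha hIa hb1 (Or.inr ⟨hb0, hIb⟩)] with ω hω
    filter_upwards [(hω (b / 2) (by linarith)).2.2.1] with n hn
    refine lt_of_le_of_lt (le_of_eq ?_) hn
    ring
  refine ⟨?_, ?_⟩
  · -- many members in `I_k`
    have ht : ∀ᶠ k : ℕ in atTop, (2 * k - 1) ^ 2 ≤ (fun k : ℕ => (2 * k - 1) ^ 2) k ∧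
        (((fun k : ℕ => (2 * k - 1) ^ 2) k : ℕ) : ℝ) + 3 * Real.log k ^ 2 < (2 * (k : ℝ) + 1) ^ 2 := by
      filter_upwards [Pool.Agent.H636.FW.log_sq_small (show (0 : ℝ) < 3 by norm_num), eventually_ge_atTop 1] with k h1 h2
      refine ⟨le_rfl, ?_⟩
      have hk : (1 : ℝ) ≤ k := by exact_mod_cast h2
      have h3 : (((2 * k - 1) ^ 2 : ℕ) : ℝ) = (2 * (k : ℝ) - 1) ^ 2 := by
        rw [Nat.cast_pow, Nat.cast_sub (by omega)]
        push_cast
        ring
      change (((2 * k - 1) ^ 2 : ℕ) : ℝ) + 3 * Real.log k ^ 2 < (2 * (k : ℝ) + 1) ^ 2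
      rw [h3]
      nlinarith
    obtain ⟨κ, hκ, hω⟩ := main2 3 (fun k => (2 * k - 1) ^ 2) (by norm_num) ht (by norm_num)
    filter_upwards [hω] with ω hω r
    filter_upwards [hω, ht, (Pool.Agent.R528.RM.tendsto_log.const_mul_atTop hκ).eventually_ge_atTop (r : ℝ)]
      with k h1 h2 h3
    have h4 := countI_ge (S := {n | ω ∈ A n}) (k := k) (y := 3 * Real.log k ^ 2) h2.2
    have h5 : (r : ℝ) < countAfter {n | ω ∈ A n} ((2 * k - 1) ^ 2) (3 * Real.log k ^ 2) :=
      lt_of_le_of_lt h3 h1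
    have h6 : r < countAfter {n | ω ∈ A n} ((2 * k - 1) ^ 2) (3 * Real.log k ^ 2) := by
      exact_mod_cast h5
    omega
  · intro c t hc ht
    refine ⟨?_, main2 c t hc ht, main c t hc ht⟩
    intro hc2
    filter_upwards [Pool.Agent.H636.FW.few_law (μ := μ) (ℱ := ℱ) hA hQ hprof (spar_t hc ht)
      (show 0 < c / 2 by positivity) (by linarith)] with ω hω r ε hε
    filter_upwards [hω r ε hε] with K hK
    rw [fewUpTo_eq ω t hc]
    exact hK
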