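import Mathlib
import Pool.Agent.R481.RM.Ends2
import Pool.Agent.R481.RM.Ends3

set_option autoImplicit false

/-!
# The first and the last elements of the intervals between consecutive odd squares in random models

Let `I_k = ((2k-1)², (2k+1)²)`.  In EVERY sequential random model of the primes sieved by a fixed `Q`
(the integers are decided one after the other, only integers coprime to `Q` can be chosen, and the
conditional probability of choosing `n + 1`, coprime to `Q`, given the past is asymptotic to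
`(Q / φ(Q)) / log n`; no independence is assumed) we determine, almost surely, for all `r, s` the set
of all limit points of the vector of the distances of the first `r + 1` chosen integers of `I_k` from
the left end and of the last `s + 1` chosen integers of `I_k` from the right end, divided by
`(log k)²`: it is exactly the set of all `0 ≤ u_0 ≤ … ≤ u_r`, `0 ≤ v_0 ≤ … ≤ v_s` with
`u_r + v_s ≤ 2`, and the vector comes arbitrarily close to this set.  In particular `I_k` contains at
least `m` chosen integers for every `m` and all large `k`.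
-/

open MeasureTheory Filter
open scoped Topology

namespace Pool.Agent.Results.MP_5f6ee5_nt.EndsOfIntervals

/-- the distance from `(2k-1)²` to the `i`-th element (`i = 0, 1, …`) of `S` above it -/
noncomputable def first (S : Set ℕ) (k i : ℕ) : ℕ :=
  Nat.nth (fun d => 0 < d ∧ (2 * k - 1) ^ 2 + d ∈ S) i

/-- the distance from `(2k+1)²` to the `i`-th element (`i = 0, 1, …`) of `S` below it -/
noncomputable def last (S : Set ℕ) (k i : ℕ) : ℕ :=
  Nat.nth (fun d => 0 < d ∧ d ≤ (2 * k + 1) ^ 2 ∧ (2 * k + 1) ^ 2 - d ∈ S) i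

/-- the first `r + 1` and the last `s + 1` distances, divided by `(log k)²` -/
noncomputable def vec (S : Set ℕ) (r s k : ℕ) : (Fin (r + 1) → ℝ) × (Fin (s + 1) → ℝ) :=
  (fun i => (first S k i : ℝ) / Real.log k ^ 2, fun i => (last S k i : ℝ) / Real.log k ^ 2)

/-- `0 ≤ u_0 ≤ … ≤ u_r`, `0 ≤ v_0 ≤ … ≤ v_s`, `u_r + v_s ≤ 2` -/
def Region (r s : ℕ) : Set ((Fin (r + 1) → ℝ) × (Fin (s + 1) → ℝ)) :=
  {p | (∀ i, 0 ≤ p.1 i) ∧ Monotone p.1 ∧ (∀ i, 0 ≤ p.2 i) ∧ Monotone p.2 ∧
    p.1 (Fin.last r) + p.2 (Fin.last s) ≤ 2}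

open Pool.Agent.R528.RM Pool.Agent.R481.RM

lemma count_le_card {P : ℕ → Prop} [DecidablePred P] {K : ℕ} (hf : (Set.ofPred P).Finite) :
    Nat.count P K ≤ hf.toFinset.card := by
  rw [Nat.count_eq_card_filter_range]
  apply Finset.card_le_card
  intro n hn
  rw [Set.Finite.mem_toFinset]
  exact (Finset.mem_filter.1 hn).2

lemma nth_mono {P : ℕ → Prop} [DecidablePred P] {K r i j : ℕ} (h : r < Nat.count P K) (hij : i ≤ j) (hj : j ≤ r) :
    Nat.nth P i ≤ Nat.nth P j := by
  rcases Nat.lt_or_ge i j with h1 | h1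
  · have h2 : Nat.count P (Nat.nth P j) = j :=
      Nat.count_nth fun hf => lt_of_le_of_lt hj (lt_of_lt_of_le h (count_le_card hf))
    exact (Nat.nth_lt_of_lt_count (by rw [h2]; exact h1)).le
  · rw [show i = j by omega]

lemma tendsto_pW {W : ℕ} (hW : 0 < W) {u : ℝ} (hu : 0 ≤ u) :
    Tendsto (fun k : ℕ => (pW W u k : ℝ) / Real.log k ^ 2) atTop (𝓝 u) := by
  have hlog : Tendsto (fun k : ℕ => Real.log (k : ℝ) ^ 2) atTop atTop :=
    (tendsto_pow_atTop (by norm_num)).comp tendsto_log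
  have h1 : Tendsto (fun k : ℕ => u - (W : ℝ) / Real.log k ^ 2) atTop (𝓝 (u - 0)) :=
    tendsto_const_nhds.sub (tendsto_const_nhds.div_atTop hlog)
  rw [sub_zero] at h1
  refine tendsto_of_tendsto_of_tendsto_of_le_of_le' h1 tendsto_const_nhds ?_ ?_
  · filter_upwards [ev_log 1] with k hk
    have hL : 0 < Real.log (k : ℝ) ^ 2 := by positivity
    rw [le_div_iff₀ hL, sub_mul, div_mul_cancel₀ _ hL.ne']
    linarith [lt_pW hW u k]
  · filter_upwards [ev_log 1] with k hk
    have hL : 0 < Real.log (k : ℝ) ^ 2 := by positivity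
    rw [div_le_iff₀ hL]
    exact pW_le hW hu k

lemma mem_of_cluster {X : Type} [TopologicalSpace X] {f : ℕ → X} {p : X} (h : MapClusterPt p atTop f) {F : Set X} (hF : IsClosed F)
    (he : ∀ᶠ k in atTop, f k ∈ F) : p ∈ F := by
  by_contra hp
  have h1 := (mapClusterPt_iff_frequently.1 h) Fᶜ (hF.isOpen_compl.mem_nhds hp)
  obtain ⟨k, h2, h3⟩ := (h1.and_eventually he).exists
  exact h2 h3

/-- the interior of the region -/
def Good (r s : ℕ) : Set ((Fin (r + 1) → ℝ) × (Fin (s + 1) → ℝ)) :=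
  {q | (∀ i, 0 < q.1 i) ∧ (∀ i j, i < j → q.1 i < q.1 j) ∧ (∀ i, 0 < q.2 i) ∧ (∀ i j, i < j → q.2 i < q.2 j) ∧
    q.1 (Fin.last r) + q.2 (Fin.last s) < 2}

lemma good_open (r s : ℕ) : IsOpen (Good r s) := by
  have c1 : ∀ i, Continuous fun q : (Fin (r + 1) → ℝ) × (Fin (s + 1) → ℝ) => q.1 i := fun i =>
    (continuous_apply i).comp continuous_fst
  have c2 : ∀ i, Continuous fun q : (Fin (r + 1) → ℝ) × (Fin (s + 1) → ℝ) => q.2 i := fun i =>
    (continuous_apply i).comp continuous_snd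
  have e : Good r s = (⋂ i, {q | 0 < q.1 i}) ∩ ((⋂ i, ⋂ j, ⋂ (_ : i < j), {q | q.1 i < q.1 j}) ∩ ((⋂ i, {q | 0 < q.2 i}) ∩
      ((⋂ i, ⋂ j, ⋂ (_ : i < j), {q | q.2 i < q.2 j}) ∩ {q | q.1 (Fin.last r) + q.2 (Fin.last s) < 2}))) := by
    ext q
    simp only [Good, Set.mem_inter_iff, Set.mem_iInter, Set.mem_ofPred_eq]
  rw [e]
  refine (isOpen_iInter_of_finite fun i => isOpen_lt continuous_const (c1 i)).inter
    ((isOpen_iInter_of_finite fun i => isOpen_iInter_of_finite fun j => isOpen_iInter_of_finite fun _ => isOpen_lt (c1 i) (c1 j)).inter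
    ((isOpen_iInter_of_finite fun i => isOpen_lt continuous_const (c2 i)).inter
    ((isOpen_iInter_of_finite fun i => isOpen_iInter_of_finite fun j => isOpen_iInter_of_finite fun _ => isOpen_lt (c2 i) (c2 j)).inter
    (isOpen_lt ((c1 _).add (c2 _)) continuous_const))))

lemma region_closure {r s : ℕ} {p : (Fin (r + 1) → ℝ) × (Fin (s + 1) → ℝ)} (hp : p ∈ Region r s) {O : Set _} (hO : IsOpen O) (hpO : p ∈ O) :
    (O ∩ Good r s).Nonempty := by
  obtain ⟨h1, h2, h3, h4, h5⟩ := hp
  set p₀ : (Fin (r + 1) → ℝ) × (Fin (s + 1) → ℝ) :=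
    (fun i => ((i : ℕ) + 1 : ℝ) / (2 * (r + 2)), fun i => ((i : ℕ) + 1 : ℝ) / (2 * (s + 2))) with hp₀
  set φ : ℝ → (Fin (r + 1) → ℝ) × (Fin (s + 1) → ℝ) := fun t => (1 - t) • p + t • p₀ with hφ
  have hc : Continuous φ := by
    rw [hφ]
    fun_prop
  have h0 : φ 0 = p := by simp [hφ]
  have hev : ∀ᶠ t in 𝓝 (0 : ℝ), φ t ∈ O := by
    have := hc.continuousAt (x := 0)
    exact this.eventually_mem (by rw [h0]; exact hO.mem_nhds hpO)
  obtain ⟨ε, hε, hball⟩ := Metric.eventually_nhds_iff.1 hev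
  set t : ℝ := min (ε / 2) (1 / 2) with ht
  have ht0 : 0 < t := lt_min (by linarith) (by norm_num)
  have ht1 : t ≤ 1 / 2 := min_le_right _ _
  have ht2 : t < ε := lt_of_le_of_lt (min_le_left _ _) (by linarith)
  refine ⟨φ t, hball (by rw [Real.dist_eq, sub_zero, abs_of_pos ht0]; exact ht2), ?_⟩
  have e1 : ∀ i, (φ t).1 i = (1 - t) * p.1 i + t * (((i : ℕ) + 1 : ℝ) / (2 * (r + 2))) := fun i => rfl
  have e2 : ∀ i, (φ t).2 i = (1 - t) * p.2 i + t * (((i : ℕ) + 1 : ℝ) / (2 * (s + 2))) := fun i => rfl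
  have hr : (0 : ℝ) < 2 * (r + 2) := by positivity
  have hs : (0 : ℝ) < 2 * (s + 2) := by positivity
  refine ⟨?_, ?_, ?_, ?_, ?_⟩
  · intro i
    rw [e1]
    have : 0 < t * (((i : ℕ) + 1 : ℝ) / (2 * (r + 2))) := by positivity
    have := mul_nonneg (show 0 ≤ 1 - t by linarith) (h1 i)
    linarith
  · intro i j hij
    rw [e1, e1]
    have a1 := mul_le_mul_of_nonneg_left (h2 hij.le) (show 0 ≤ 1 - t by linarith)
    have a2 : (((i : ℕ) + 1 : ℝ) / (2 * (r + 2))) < (((j : ℕ) + 1 : ℝ) / (2 * (r + 2))) := by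
      apply div_lt_div_of_pos_right _ hr
      have : ((i : ℕ) : ℝ) < (j : ℕ) := by exact_mod_cast hij
      linarith
    have a3 := mul_lt_mul_of_pos_left a2 ht0
    linarith
  · intro i
    rw [e2]
    have : 0 < t * (((i : ℕ) + 1 : ℝ) / (2 * (s + 2))) := by positivity
    have := mul_nonneg (show 0 ≤ 1 - t by linarith) (h3 i)
    linarith
  · intro i j hij
    rw [e2, e2]
    have a1 := mul_le_mul_of_nonneg_left (h4 hij.le) (show 0 ≤ 1 - t by linarith)
    have a2 : (((i : ℕ) + 1 : ℝ) / (2 * (s + 2))) < (((j : ℕ) + 1 : ℝ) / (2 * (s + 2))) := by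
      apply div_lt_div_of_pos_right _ hs
      have : ((i : ℕ) : ℝ) < (j : ℕ) := by exact_mod_cast hij
      linarith
    have a3 := mul_lt_mul_of_pos_left a2 ht0
    linarith
  · rw [e1, e2]
    have a1 : (((Fin.last r : Fin (r + 1)) : ℕ) + 1 : ℝ) / (2 * (r + 2)) < 1 / 2 := by
      rw [Fin.val_last, div_lt_div_iff₀ hr (by norm_num)]
      linarith
    have a2 : (((Fin.last s : Fin (s + 1)) : ℕ) + 1 : ℝ) / (2 * (s + 2)) < 1 / 2 := by
      rw [Fin.val_last, div_lt_div_iff₀ hs (by norm_num)]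
      linarith
    have a3 := mul_lt_mul_of_pos_left a1 ht0
    have a4 := mul_lt_mul_of_pos_left a2 ht0
    have a5 := mul_le_mul_of_nonneg_left h5 (show 0 ≤ 1 - t by linarith)
    rw [mul_add] at a5
    linarith

end Pool.Agent.Results.MP_5f6ee5_nt.EndsOfIntervals

open Pool.Agent.Results.MP_5f6ee5_nt.EndsOfIntervals Pool.Agent.R528.RM Pool.Agent.R481.RM in
/-- **The first and last chosen integers between consecutive odd squares.**  Let `A n` (`n` is
chosen) be adapted events, empty unless `n` is coprime to `Q`, such that almost surely the conditional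
probability of `A (n + 1)` given the past, times `log n`, tends to `Q / φ(Q)` along the `n` with `n + 1`
coprime to `Q`.  Then almost surely, for all `r, s`: (1) the set of the limit points of the vector of
the distances of the first `r + 1` chosen integers above `(2k-1)²` and of the last `s + 1` chosen
integers below `(2k+1)²`, divided by `(log k)²`, is exactly
`{0 ≤ u_0 ≤ … ≤ u_r, 0 ≤ v_0 ≤ … ≤ v_s, u_r + v_s ≤ 2}`; (2) for every `ε > 0` and all large `k` the sum
of the `r`-th and the `s`-th distance is at most `(2 + ε) (log k)²`; (3) for all `m` and all large `k`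
there are at least `m` chosen integers strictly between `(2k-1)²` and `(2k+1)²`. -/
theorem Pool.Agent.Results.MP_5f6ee5_nt.EndsOfIntervals.result
    {Ω : Type} [mΩ : MeasurableSpace Ω] (μ : Measure Ω) [IsProbabilityMeasure μ]
    (ℱ : Filtration ℕ mΩ) (A : ℕ → Set Ω) (hA : ∀ n, MeasurableSet[ℱ n] (A n))
    (Q : ℕ) (hQ : 0 < Q) (hcop : ∀ n, ¬ Nat.Coprime n Q → A n = ∅)
    (hd : ∀ᵐ ω ∂μ, Tendsto (fun n : ℕ =>
      (μ[(A (n + 1)).indicator (fun _ => (1 : ℝ)) | ℱ n]) ω * Real.log n)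
      (atTop ⊓ 𝓟 {n : ℕ | Nat.Coprime (n + 1) Q}) (𝓝 ((Q : ℝ) / Nat.totient Q))) :
    ∀ᵐ ω ∂μ,
      (∀ r s : ℕ, {p | MapClusterPt p atTop (vec {n | ω ∈ A n} r s)} = Region r s) ∧
      (∀ r s : ℕ, ∀ ε : ℝ, 0 < ε → ∀ᶠ k : ℕ in atTop,
        (first {n | ω ∈ A n} k r : ℝ) + last {n | ω ∈ A n} k s ≤ (2 + ε) * Real.log k ^ 2) ∧
      (∀ m : ℕ, ∀ᶠ k : ℕ in atTop,
        m ≤ ({n | ω ∈ A n} ∩ Set.Ioo ((2 * k - 1) ^ 2) ((2 * k + 1) ^ 2)).ncard) := by
  classical
  have hprof := Pool.Agent.R528.RM.dens_profile (μ := μ) (ℱ := ℱ) hA Q hQ hcop hd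
  -- the upper law on a grid
  have hU : ∀ᵐ ω ∂μ, ∀ n i j r : ℕ, (2 : ℝ) < 1 / (n + 1) * i + 1 / (n + 1) * j → ∀ᶠ k in atTop, ∀ R : Finset ℕ,
      R ⊆ W2 (g2 (1 / (n + 1) * i) k) (g2 (1 / (n + 1) * j) k) k → R.card ≤ r →
      ∃ a ∈ W2 (g2 (1 / (n + 1) * i) k) (g2 (1 / (n + 1) * j) k) k, a ∉ R ∧ ω ∈ A a := by
    rw [ae_all_iff]; intro n
    rw [ae_all_iff]; intro i
    rw [ae_all_iff]; intro j
    rw [ae_all_iff]; intro r
    by_cases h : (2 : ℝ) < 1 / (n + 1) * i + 1 / (n + 1) * j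
    · filter_upwards [upper_law (μ := μ) (ℱ := ℱ) hA hQ hprof (a := 1 / ((n : ℝ) + 1) * i) (b := 1 / ((n : ℝ) + 1) * j)
        (by positivity) (by positivity) h r] with ω hω _
      exact hω
    · exact Eventually.of_forall fun ω h' => absurd h' h
  -- the lower law at the points of a countable dense set
  have hdense : ∀ r s : ℕ, ∃ D : Set ((Fin (r + 1) → ℝ) × (Fin (s + 1) → ℝ)), D.Countable ∧ Dense D := fun r s =>
    TopologicalSpace.exists_countable_dense _
  choose D hDc hDd using hdense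
  have hL : ∀ᵐ ω ∂μ, ∀ r s : ℕ, ∀ q ∈ D r s, q ∈ Good r s →
      ∃ᶠ k in atTop, ω ∈ CylE A (ones q.1 q.2 Q k) (W2 (pW Q (q.1 (Fin.last r)) k) (pW Q (q.2 (Fin.last s)) k) k) := by
    rw [ae_all_iff]; intro r
    rw [ae_all_iff]; intro s
    rw [ae_ball_iff (hDc r s)]
    intro q _
    by_cases h : q ∈ Good r s
    · filter_upwards [lower_law (μ := μ) (ℱ := ℱ) hA hQ hprof h.1 h.2.2.1 h.2.2.2.2] with ω hω _
      exact hω
    · exact Eventually.of_forall fun ω h' => absurd h' h
  filter_upwards [hU, hL] with ω hU hL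
  set S : Set ℕ := {n | ω ∈ A n} with hS
  have hfirst : ∀ k i, first S k i = Nat.nth (Rd S (Tq k)) i := fun k i => rfl
  have hlast : ∀ k i, last S k i = Nat.nth (Ld S (Uq k)) i := fun k i => rfl
  -- counts in the windows
  have hcount : ∀ n i j r s : ℕ, (2 : ℝ) < 1 / (n + 1) * i + 1 / (n + 1) * j → ∀ᶠ k : ℕ in atTop,
      r < Nat.count (Rd S (Tq k)) (g2 (1 / (n + 1) * i) k + 1) ∨ s < Nat.count (Ld S (Uq k)) (g2 (1 / (n + 1) * j) k + 1) := by
    intro n i j r s hij
    filter_upwards [hU n i j (r + s) hij, two_win hQ one_pos (1 / ((n : ℝ) + 1) * i + 1 / (n + 1) * j)] with k h1 h2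
    have hL0 : 0 ≤ Real.log (k : ℝ) ^ 2 := by positivity
    have i0 : (0 : ℝ) ≤ 1 / (n + 1) * i := by positivity
    have j0 : (0 : ℝ) ≤ 1 / (n + 1) * j := by positivity
    obtain ⟨⟨r1, r2, r3⟩, _⟩ := h2 (g2 (1 / (n + 1) * i) k) (g2 (1 / (n + 1) * j) k)
      ((Nat.floor_le (by positivity)).trans (mul_le_mul_of_nonneg_right (by linarith) hL0))
      ((Nat.floor_le (by positivity)).trans (mul_le_mul_of_nonneg_right (by linarith) hL0))
    exact count_of r1 r3 h1
  have hg0 : ∀ k, g2 (1 / (((0 : ℕ) : ℝ) + 1) * ((0 : ℕ) : ℝ)) k = 0 := by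
    intro k
    unfold g2
    simp
  have hg3 : ∀ k, g2 (1 / (((0 : ℕ) : ℝ) + 1) * ((3 : ℕ) : ℝ)) k = g2 3 k := by
    intro k
    unfold g2
    norm_num
  have hG1 : ∀ r : ℕ, ∀ᶠ k : ℕ in atTop, r < Nat.count (Rd S (Tq k)) (g2 3 k + 1) := by
    intro r
    filter_upwards [hcount 0 3 0 r 0 (by norm_num)] with k hk
    rw [hg0, hg3] at hk
    rcases hk with h | h
    · exact h
    · exfalso
      rw [Nat.count_succ, Nat.count_zero, if_neg (by unfold Ld; omega)] at h
      omega
  have hG2 : ∀ s : ℕ, ∀ᶠ k : ℕ in atTop, s < Nat.count (Ld S (Uq k)) (g2 3 k + 1) := by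
    intro s
    filter_upwards [hcount 0 0 3 0 s (by norm_num)] with k hk
    rw [hg0, hg3] at hk
    rcases hk with h | h
    · exfalso
      rw [Nat.count_succ, Nat.count_zero, if_neg (by unfold Rd; omega)] at h
      omega
    · exact h
  -- the bound for the sum
  have hB : ∀ r s : ℕ, ∀ ε : ℝ, 0 < ε → ∀ᶠ k : ℕ in atTop,
      (first S k r : ℝ) + last S k s ≤ (2 + ε) * Real.log k ^ 2 := by
    intro r s ε hε
    obtain ⟨n, hn⟩ := exists_nat_one_div_lt (show 0 < ε / 4 by linarith)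
    set η : ℝ := 1 / ((n : ℝ) + 1) with hη
    have hη0 : 0 < η := by positivity
    have hgrid : ∀ᶠ k : ℕ in atTop, ∀ i ∈ Finset.range (3 * (n + 1) + 1), ∀ j ∈ Finset.range (3 * (n + 1) + 1), (2 : ℝ) < η * i + η * j →
        r < Nat.count (Rd S (Tq k)) (g2 (η * i) k + 1) ∨ s < Nat.count (Ld S (Uq k)) (g2 (η * j) k + 1) := by
      rw [Filter.eventually_all_finset]
      intro i _
      rw [Filter.eventually_all_finset]
      intro j _
      by_cases h : (2 : ℝ) < η * i + η * j
      · filter_upwards [hcount n i j r s h] with k hk _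
        exact hk
      · exact Eventually.of_forall fun k h' => absurd h' h
    filter_upwards [hgrid, hG1 r, hG2 s, ev_log 1] with k h1 h2 h3 h4
    have hL : 0 < Real.log (k : ℝ) ^ 2 := by positivity
    rw [hfirst, hlast]
    set x : ℕ := Nat.nth (Rd S (Tq k)) r with hx
    set y : ℕ := Nat.nth (Ld S (Uq k)) s with hy
    have hx3 : (x : ℝ) ≤ 3 * Real.log k ^ 2 := by
      have : x < g2 3 k + 1 := Nat.nth_lt_of_lt_count h2
      have e : (x : ℝ) ≤ g2 3 k := by exact_mod_cast (by omega : x ≤ g2 3 k)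
      exact e.trans (Nat.floor_le (by positivity))
    have hy3 : (y : ℝ) ≤ 3 * Real.log k ^ 2 := by
      have : y < g2 3 k + 1 := Nat.nth_lt_of_lt_count h3
      have e : (y : ℝ) ≤ g2 3 k := by exact_mod_cast (by omega : y ≤ g2 3 k)
      exact e.trans (Nat.floor_le (by positivity))
    -- the grid point below z
    have grid : ∀ z : ℕ, (z : ℝ) ≤ 3 * Real.log k ^ 2 → ∃ i ∈ Finset.range (3 * (n + 1) + 1),
        (z : ℝ) ≤ η * (i + 1) * Real.log k ^ 2 ∧ (i = 0 ∨ g2 (η * i) k < z) := by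
      intro z hz
      set w : ℝ := (z : ℝ) / (η * Real.log k ^ 2) with hw
      have hηL : 0 < η * Real.log (k : ℝ) ^ 2 := mul_pos hη0 hL
      have hw0 : 0 ≤ w := by positivity
      have hwz : w * (η * Real.log k ^ 2) = z := by rw [hw]; field_simp
      have hw3 : w ≤ 3 * (n + 1) := by
        rw [hw, div_le_iff₀ hηL]
        have : 3 * ((n : ℝ) + 1) * (η * Real.log k ^ 2) = 3 * Real.log k ^ 2 := by
          rw [hη]; field_simp
        rw [this]
        exact hz
      have hc : ⌈w⌉₊ ≤ 3 * (n + 1) := Nat.ceil_le.2 (by push_cast; exact hw3)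
      refine ⟨⌈w⌉₊ - 1, Finset.mem_range.2 (by omega), ?_, ?_⟩
      · have e1 : w ≤ ((⌈w⌉₊ - 1 : ℕ) : ℝ) + 1 := by
          refine (Nat.le_ceil w).trans ?_
          have : ⌈w⌉₊ ≤ (⌈w⌉₊ - 1) + 1 := by omega
          exact_mod_cast this
        rw [← hwz]
        have := mul_le_mul_of_nonneg_right e1 hηL.le
        linarith
      · by_cases h0 : ⌈w⌉₊ - 1 = 0
        · exact Or.inl h0
        · right
          have e1 : ((⌈w⌉₊ - 1 : ℕ) : ℝ) < w := by
            have h5 := Nat.ceil_lt_add_one hw0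
            have h6 : ((⌈w⌉₊ - 1 : ℕ) : ℝ) + 1 = ⌈w⌉₊ := by exact_mod_cast (by omega : ⌈w⌉₊ - 1 + 1 = ⌈w⌉₊)
            linarith
          have e2 : η * ((⌈w⌉₊ - 1 : ℕ) : ℝ) * Real.log k ^ 2 < z := by
            rw [← hwz]
            have := mul_lt_mul_of_pos_right e1 hηL
            linarith
          have e3 : ((g2 (η * ((⌈w⌉₊ - 1 : ℕ) : ℝ)) k : ℕ) : ℝ) < z :=
            lt_of_le_of_lt (Nat.floor_le (by positivity)) e2
          exact_mod_cast e3
    obtain ⟨i, hi1, hi2, hi3⟩ := grid x hx3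
    obtain ⟨j, hj1, hj2, hj3⟩ := grid y hy3
    by_contra hcon
    push Not at hcon
    have hij : (2 : ℝ) < η * i + η * j := by
      have e1 : (2 + ε) * Real.log k ^ 2 < (η * (i + 1) + η * (j + 1)) * Real.log k ^ 2 := by
        rw [add_mul (η * ((i : ℝ) + 1))]
        linarith
      have e2 := lt_of_mul_lt_mul_right e1 hL.le
      linarith
    rcases h1 i hi1 j hj1 hij with h5 | h5
    · rcases hi3 with h6 | h6
      · rw [h6] at h5
        have : g2 (η * ((0 : ℕ) : ℝ)) k = 0 := by unfold g2; simp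
        rw [this, Nat.count_succ, Nat.count_zero, if_neg (by unfold Rd; omega)] at h5
        omega
      · have : x < g2 (η * i) k + 1 := Nat.nth_lt_of_lt_count h5
        omega
    · rcases hj3 with h6 | h6
      · rw [h6] at h5
        have : g2 (η * ((0 : ℕ) : ℝ)) k = 0 := by unfold g2; simp
        rw [this, Nat.count_succ, Nat.count_zero, if_neg (by unfold Ld; omega)] at h5
        omega
      · have : y < g2 (η * j) k + 1 := Nat.nth_lt_of_lt_count h5
        omega
  refine ⟨?_, hB, ?_⟩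
  · intro r s
    ext p
    have c1 : ∀ i, Continuous fun q : (Fin (r + 1) → ℝ) × (Fin (s + 1) → ℝ) => q.1 i := fun i =>
      (continuous_apply i).comp continuous_fst
    have c2 : ∀ i, Continuous fun q : (Fin (r + 1) → ℝ) × (Fin (s + 1) → ℝ) => q.2 i := fun i =>
      (continuous_apply i).comp continuous_snd
    constructor
    · intro hp
      have hp' : MapClusterPt p atTop (vec S r s) := hp
      refine ⟨?_, ?_, ?_, ?_, ?_⟩
      · intro i
        refine mem_of_cluster hp' (F := {q | 0 ≤ q.1 i}) (isClosed_le continuous_const (c1 i)) (Eventually.of_forall fun k => ?_)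
        show 0 ≤ (first S k i : ℝ) / Real.log k ^ 2
        positivity
      · intro i j hij
        refine mem_of_cluster hp' (F := {q | q.1 i ≤ q.1 j}) (isClosed_le (c1 i) (c1 j)) ?_
        filter_upwards [hG1 r] with k hk
        show (first S k i : ℝ) / Real.log k ^ 2 ≤ (first S k j : ℝ) / Real.log k ^ 2
        apply div_le_div_of_nonneg_right _ (by positivity)
        rw [hfirst, hfirst]
        exact_mod_cast nth_mono hk hij (Nat.lt_succ_iff.1 j.2)
      · intro i
        refine mem_of_cluster hp' (F := {q | 0 ≤ q.2 i}) (isClosed_le continuous_const (c2 i)) (Eventually.of_forall fun k => ?_)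
        show 0 ≤ (last S k i : ℝ) / Real.log k ^ 2
        positivity
      · intro i j hij
        refine mem_of_cluster hp' (F := {q | q.2 i ≤ q.2 j}) (isClosed_le (c2 i) (c2 j)) ?_
        filter_upwards [hG2 s] with k hk
        show (last S k i : ℝ) / Real.log k ^ 2 ≤ (last S k j : ℝ) / Real.log k ^ 2
        apply div_le_div_of_nonneg_right _ (by positivity)
        rw [hlast, hlast]
        exact_mod_cast nth_mono hk hij (Nat.lt_succ_iff.1 j.2)
      · apply le_of_forall_pos_le_add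
        intro ε hε
        refine mem_of_cluster hp' (F := {q | q.1 (Fin.last r) + q.2 (Fin.last s) ≤ 2 + ε})
          (isClosed_le ((c1 _).add (c2 _)) continuous_const) ?_
        filter_upwards [hB r s ε hε, ev_log 1] with k hk hk1
        show (first S k (Fin.last r : Fin (r + 1)) : ℝ) / Real.log k ^ 2 + (last S k (Fin.last s : Fin (s + 1)) : ℝ) / Real.log k ^ 2 ≤ 2 + ε
        have hL : 0 < Real.log (k : ℝ) ^ 2 := by positivity
        rw [Fin.val_last, Fin.val_last, ← add_div, div_le_iff₀ hL]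
        exact hk
    · intro hp
      show MapClusterPt p atTop (vec S r s)
      rw [mapClusterPt_iff_frequently]
      intro O hO
      obtain ⟨O', hO'1, hO'2, hO'3⟩ := mem_nhds_iff.1 hO
      obtain ⟨q, hq1, hq2⟩ := (hDd r s).exists_mem_open (hO'2.inter (good_open r s)) (region_closure hp hO'2 hO'3)
      have h1 := hL r s q hq1 hq2.2
      have h2 := det (W := Q) hQ hq2.2.1 hq2.2.2.2.1 (fun i j hij => hq2.2.2.1 i j hij) (fun i j hij => hq2.2.2.2.2.1 i j hij)
      have h3 : Tendsto (fun k : ℕ => ((fun i => (pW Q (q.1 i) k : ℝ) / Real.log k ^ 2, fun i => (pW Q (q.2 i) k : ℝ) / Real.log k ^ 2) :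
          (Fin (r + 1) → ℝ) × (Fin (s + 1) → ℝ))) atTop (𝓝 q) := by
        apply Tendsto.prodMk_nhds
        · rw [tendsto_pi_nhds]
          intro i
          exact tendsto_pW hQ (hq2.2.1 i).le
        · rw [tendsto_pi_nhds]
          intro i
          exact tendsto_pW hQ (hq2.2.2.2.1 i).le
      have h4 := h3.eventually_mem (hO'2.mem_nhds hq2.1)
      refine ((h1.and_eventually (h2.and h4))).mono ?_
      rintro k ⟨g1, g2', g3⟩
      apply hO'1
      obtain ⟨f1, f2⟩ := g2' S g1
      have : vec S r s k = ((fun i => (pW Q (q.1 i) k : ℝ) / Real.log k ^ 2, fun i => (pW Q (q.2 i) k : ℝ) / Real.log k ^ 2)) := by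
        unfold vec
        congr 1
        · funext i
          rw [hfirst, f1]
        · funext i
          rw [hlast, f2]
      rw [this]
      exact g3
  · intro m
    filter_upwards [hG1 m, two_win hQ one_pos 3, eventually_ge_atTop 1] with k h1 h2 h3
    obtain ⟨⟨r1, r2, r3⟩, _⟩ := h2 (g2 3 k) 0 (Nat.floor_le (by positivity)) (by push_cast; positivity)
    rw [Nat.count_eq_card_filter_range] at h1
    have hfin : ({n | ω ∈ A n} ∩ Set.Ioo ((2 * k - 1) ^ 2) ((2 * k + 1) ^ 2)).Finite :=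
      (Set.finite_Ioo _ _).subset Set.inter_subset_right
    have h4 : (((Finset.range (g2 3 k + 1)).filter (Rd S (Tq k))).image (fun d => Tq k + d) : Set ℕ) ⊆
        {n | ω ∈ A n} ∩ Set.Ioo ((2 * k - 1) ^ 2) ((2 * k + 1) ^ 2) := by
      intro n hn
      obtain ⟨d, hd1, rfl⟩ := Finset.mem_image.1 (Finset.mem_coe.1 hn)
      obtain ⟨hd2, hd3⟩ := Finset.mem_filter.1 hd1
      have hd4 := Finset.mem_range.1 hd2
      refine ⟨hd3.2, ?_, ?_⟩
      · show Tq k < Tq k + d
        have := hd3.1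
        omega
      · show Tq k + d < Uq k
        omega
    have h5 := Set.ncard_le_ncard h4 hfin
    rw [Set.ncard_coe_finset, Finset.card_image_of_injective _ (fun a b h => by simpa using h)] at h5
    have h6 : m < (Finset.filter (Rd S (Tq k)) (Finset.range (g2 3 k + 1))).card := by convert h1
    exact h6.le.trans h5
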