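import Mathlib
import Pool.Agent.R320.IT.FewOdd

set_option autoImplicit false

/-!
# The integral test for fewer than `r` members above the odd squares in random models of the primes

The problem asks for two primes between consecutive odd squares.  Consider a random set of integers
which are decided one after the other; only integers coprime to a fixed `Q` can be chosen, and the
conditional probability of choosing `n + 1` (coprime to `Q`) given the past is `(Q / φ(Q)) / D n`,
where `D` varies slowly, `|D (n + 1) - D n| ≤ (K / n) |D n|`, and `D n - log n` converges almost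
surely, to a possibly random limit `C`.  (For `Q = 1`: Cramér's model, `C = 0`, and the Hawkins
random sieve, for which `C` is a non-degenerate random variable.)

Let `h ≥ 0` be ANY function with `h(k) / (log k)² → t ∈ (0, ∞)`.  The theorem counts the `k` for
which the interval `((2k - 1)², (2k - 1)² + h(k)]` contains fewer than `r` members (`r = 2`: at most
one): with `y(k) = h(k) / (2 log (2k - 1))` and `w(k) = y(k)^(r-1) / (r-1)! · exp (-y(k))`, their
number up to `X` is almost surely asymptotic to `exp ((t / 4) (C - Q / (2 φ(Q))))` times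
`∑_{k ≤ X} w(k)` if this series diverges; if it converges then almost surely all but finitely many of
these intervals contain at least `r` members.
-/

open MeasureTheory Filter
open scoped Topology

namespace Pool.Agent.Results.MP_5f6ee5_nt.FewMembersIntegralTest

/-- the number of the elements `m` of `S` with `(2 k - 1)² < m ≤ (2 k - 1)² + y` (for `k ≥ 1`) -/
noncomputable def num (S : Set ℕ) (k : ℕ) (y : ℝ) : ℕ :=
  Set.ncard {m : ℕ | m ∈ S ∧ (2 * k - 1) ^ 2 < m ∧ (m : ℝ) ≤ ((2 * k - 1 : ℕ) : ℝ) ^ 2 + y}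

/-- the number of the `k ≤ X` for which the interval contains fewer than `r` elements of `S` -/
noncomputable def count (S : Set ℕ) (r : ℕ) (h : ℕ → ℝ) (X : ℕ) : ℕ :=
  Set.ncard {k : ℕ | k ≤ X ∧ num S k (h k) < r}

/-- the terms of the test series -/
noncomputable def w (r : ℕ) (h : ℕ → ℝ) (k : ℕ) : ℝ :=
  (h k / (2 * Real.log (2 * k - 1 : ℕ))) ^ (r - 1) / (r - 1).factorial *
    Real.exp (-(h k / (2 * Real.log (2 * k - 1 : ℕ))))

end Pool.Agent.Results.MP_5f6ee5_nt.FewMembersIntegralTest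

open Pool.Agent.Results.MP_5f6ee5_nt.FewMembersIntegralTest

/-- Let `A n` be the event that `n` belongs to a random set adapted to a filtration `ℱ`, let
`Q ≥ 1`, let no integer which is not coprime to `Q` be chosen, and let, for `n ≥ n₀` with `n + 1`
coprime to `Q`, the conditional probability of `A (n + 1)` given `ℱ n` be `(Q / φ(Q)) / D n`, where
`D n` is `ℱ n`-measurable, `|D (n + 1) - D n| ≤ (K / n) |D n|` for `n ≥ n₀` and `D n - log n`
converges, almost surely.  Let `r ≥ 1`, `h ≥ 0` and `h(k) / (log k)² → t > 0`.  Then almost surely,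
`C` being the limit of `D n - log n`: if `∑ w(k)` diverges, the number of the `k ≤ X` for which
`((2k - 1)², (2k - 1)² + h(k)]` contains fewer than `r` members, divided by `∑_{k ≤ X} w(k)`, tends
to `exp ((t / 4) (C - Q / (2 φ(Q))))`; if it converges, then for all large `k` this interval contains
at least `r` members. -/
theorem Pool.Agent.Results.MP_5f6ee5_nt.FewMembersIntegralTest.result
    {Ω : Type} [mΩ : MeasurableSpace Ω] (μ : Measure Ω) [IsProbabilityMeasure μ]
    (ℱ : Filtration ℕ mΩ) (A : ℕ → Set Ω) (hA : ∀ n, MeasurableSet[ℱ n] (A n))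
    (Q : ℕ) (hQ : 0 < Q) (hcop : ∀ n, ¬ Nat.Coprime n Q → A n = ∅)
    (D : ℕ → Ω → ℝ) (hD : ∀ n, StronglyMeasurable[ℱ n] (D n)) (K : ℝ) (n₀ : ℕ)
    (hK : ∀ᵐ ω ∂μ, ∀ n, n₀ ≤ n → |D (n + 1) ω - D n ω| ≤ K / n * |D n ω|)
    (hd : ∀ᵐ ω ∂μ, ∀ n, n₀ ≤ n → Nat.Coprime (n + 1) Q →
      (μ[(A (n + 1)).indicator (fun _ => (1 : ℝ)) | ℱ n]) ω = (Q : ℝ) / Nat.totient Q / D n ω)
    (hC : ∀ᵐ ω ∂μ, ∃ C : ℝ, Tendsto (fun n : ℕ => D n ω - Real.log n) atTop (𝓝 C))
    (r : ℕ) (hr : 1 ≤ r) (h : ℕ → ℝ) (h0 : ∀ k, 0 ≤ h k) (t : ℝ) (ht0 : 0 < t)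
    (ht : Tendsto (fun k : ℕ => h k / Real.log k ^ 2) atTop (𝓝 t)) :
    ∀ᵐ ω ∂μ, ∃ C : ℝ, Tendsto (fun n : ℕ => D n ω - Real.log n) atTop (𝓝 C) ∧
      (¬ Summable (w r h) →
        Tendsto (fun X : ℕ => (count {j | ω ∈ A j} r h X : ℝ) / ∑ k ∈ Finset.range (X + 1), w r h k) atTop
          (𝓝 (Real.exp (t / 4 * (C - (Q : ℝ) / Nat.totient Q / 2))))) ∧
      (Summable (w r h) → ∀ᶠ k : ℕ in atTop, r ≤ num {j | ω ∈ A j} k (h k)) := by
  filter_upwards [hC, Pool.Agent.R320.IT.odd_squares_few (μ := μ) (ℱ := ℱ) (A := A) hA hQ hcop hD hK hd h0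
    ht0 ht (r - 1)] with ω ⟨C, hC⟩ hh
  obtain ⟨h1, h2⟩ := hh C hC
  have e : ∀ k : ℕ, Pool.Agent.R320.IT.numO {j | ω ∈ A j} k (h k) ≤ r - 1 ↔
      num {j | ω ∈ A j} k (h k) < r := by
    intro k
    have e1 : Pool.Agent.R320.IT.numO {j | ω ∈ A j} k (h k) = num {j | ω ∈ A j} k (h k) := rfl
    rw [e1]
    omega
  simp only [e] at h1 h2
  refine ⟨C, hC, h1, fun hs => ?_⟩
  filter_upwards [h2 hs] with k hk
  exact not_lt.1 hk
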